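import Pool.Agent.H6.LS.Transfer
import Pool.Graph.R_seed8.Y135.SS.Col

/-!
# Colourings of the `t`-subsets of every infinite set
-/

set_option autoImplicit false

open Finset
open scoped Pointwise

namespace Pool.Agent.H6.LS

section img
variable {K : Type} {t : ℕ}

/-- the set of the entries of an injective tuple -/
def img (v : Fin t → K) (hv : Function.Injective v) : Set.powersetCard K t :=
  ⟨univ.map ⟨v, hv⟩, by rw [Set.powersetCard.mem_iff, card_map, card_univ, Fintype.card_fin]⟩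

theorem mem_img {v : Fin t → K} {hv : Function.Injective v} {x : K} :
    x ∈ (img v hv : Finset K) ↔ ∃ i, v i = x := by
  show x ∈ (univ.map ⟨v, hv⟩ : Finset K) ↔ _
  rw [mem_map]
  simp

theorem eq_of_sub {A B : Set.powersetCard K t} (h : (A : Finset K) ⊆ (B : Finset K)) : A = B := by
  apply Subtype.ext
  apply eq_of_subset_of_card_le h
  have h1 : (A : Finset K).card = t := A.2
  have h2 : (B : Finset K).card = t := B.2
  omega

/-- an enumeration of a `t`-set -/
noncomputable def enum (A : Set.powersetCard K t) : Fin t → K :=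
  fun i => ((Finset.equivFinOfCardEq (s := (A : Finset K)) A.2).symm i : K)

theorem enum_inj (A : Set.powersetCard K t) : Function.Injective (enum A) := by
  intro i j h
  exact (Finset.equivFinOfCardEq (s := (A : Finset K)) A.2).symm.injective (Subtype.ext h)

theorem exists_enum {A : Set.powersetCard K t} {x : K} (hx : x ∈ (A : Finset K)) :
    ∃ i, enum A i = x := by
  refine ⟨(Finset.equivFinOfCardEq (s := (A : Finset K)) A.2) ⟨x, hx⟩, ?_⟩
  show (((Finset.equivFinOfCardEq (s := (A : Finset K)) A.2).symm _ : _) : K) = x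
  rw [Equiv.symm_apply_apply]

theorem enum_mem (A : Set.powersetCard K t) (i : Fin t) : enum A i ∈ (A : Finset K) :=
  ((Finset.equivFinOfCardEq (s := (A : Finset K)) A.2).symm i).2

theorem img_enum (A : Set.powersetCard K t) : img (enum A) (enum_inj A) = A := by
  apply eq_of_sub
  intro x hx
  obtain ⟨i, rfl⟩ := mem_img.1 hx
  exact enum_mem A i

theorem smul_img [DecidableEq K] (σ : Equiv.Perm K) (v : Fin t → K) (hv : Function.Injective v) :
    σ • img v hv = img (fun i => σ (v i)) (fun _ _ h => hv (σ.injective h)) := by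
  symm
  apply eq_of_sub
  intro x hx
  obtain ⟨i, rfl⟩ := mem_img.1 hx
  have h1 : ((σ • img v hv : Set.powersetCard K t) : Finset K) = σ • (img v hv : Finset K) :=
    Set.powersetCard.coe_smul
  rw [h1]
  exact smul_mem_smul_finset (a := σ) (mem_img.2 ⟨i, rfl⟩)

end img

/-- the colouring of the library as a structure -/
theorem good_nat {s t : ℕ} (hst : s < t) : ∃ _ : (L t).Structure ℕ, Good s t ℕ := by
  classical
  obtain ⟨c, hc1, hc2⟩ := Pool.Agent.Y135.SS.exists_colouring s (t - s) t (by omega) (by omega)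
  let τ : (Fin (t + 1) ↪ ℕ) → (Fin (t + 1) ↪ ℕ) → Equiv.Perm ℕ := fun a b => (hc2 a b).choose
  have hτ : ∀ a b, (∀ A B : Set.powersetCard ℕ t,
      c (τ a b • A) = c (τ a b • B) ↔ c A = c B) ∧ ∀ i, τ a b (a i) = b i :=
    fun a b => (hc2 a b).choose_spec
  let T : (Fin (t + 1) → ℕ) → (Fin (t + 1) → ℕ) → ℕ → ℕ := fun a b x =>
    if h : Function.Injective a ∧ Function.Injective b then τ ⟨a, h.1⟩ ⟨b, h.2⟩ x else x
  let U : (Fin (t + 1) → ℕ) → (Fin (t + 1) → ℕ) → ℕ → ℕ := fun a b x =>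
    if h : Function.Injective a ∧ Function.Injective b then (τ ⟨a, h.1⟩ ⟨b, h.2⟩).symm x else x
  let E : (Fin t → ℕ) → (Fin t → ℕ) → Prop := fun v w =>
    ∃ (hv : Function.Injective v) (hw : Function.Injective w), c (img v hv) = c (img w hw)
  have hT : ∀ a b x, @TK t ℕ (mkStr T U E) a b x = T a b x := mkStr_T T U E
  have hU : ∀ a b x, @UK t ℕ (mkStr T U E) a b x = U a b x := mkStr_U T U E
  have hE : ∀ v w, @EK t ℕ (mkStr T U E) v w ↔ E v w := mkStr_E T U E
  refine ⟨mkStr T U E, @Good.mk s t ℕ (mkStr T U E) ?_ ?_ ?_ ?_ ?_ ?_ ?_ ?_⟩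
  · intro v w h
    obtain ⟨h1, h2, _⟩ := (hE v w).1 h
    exact ⟨h1, h2⟩
  · intro v hv
    exact (hE v v).2 ⟨hv, hv, rfl⟩
  · intro v w h
    obtain ⟨h1, h2, h3⟩ := (hE v w).1 h
    exact (hE w v).2 ⟨h2, h1, h3.symm⟩
  · intro u v w h h'
    obtain ⟨h1, h2, h3⟩ := (hE u v).1 h
    obtain ⟨h4, h5, h6⟩ := (hE v w).1 h'
    exact (hE u w).2 ⟨h1, h5, h3.trans h6⟩
  · intro v hv σ
    refine (hE _ _).2 ⟨hv, fun i j h => σ.injective (hv h), ?_⟩
    congr 1
    symm
    apply eq_of_sub
    intro x hx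
    obtain ⟨i, rfl⟩ := mem_img.1 hx
    exact mem_img.2 ⟨σ i, rfl⟩
  · intro v w hv hw
    obtain ⟨A, ⟨hA1, hA2⟩, _⟩ := hc1 (c (img v hv)) (univ.map ⟨w, hw⟩)
      (by rw [card_map, card_univ, Fintype.card_fin])
    refine ⟨enum A, (hE _ _).2 ⟨enum_inj A, hv, by rw [img_enum, hA1]⟩, fun i => ?_⟩
    have h1 : w i ∈ (A : Finset ℕ) := hA2 (mem_map.2 ⟨i, mem_univ _, rfl⟩)
    obtain ⟨j, hj⟩ := exists_enum h1
    exact ⟨j, hj.symm⟩
  · intro v u u' w hw h h' hs hs' i
    obtain ⟨h1, h2, h3⟩ := (hE u v).1 h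
    obtain ⟨h4, h5, h6⟩ := (hE u' v).1 h'
    obtain ⟨A, _, hA⟩ := hc1 (c (img v h2)) (univ.map ⟨w, hw⟩)
      (by rw [card_map, card_univ, Fintype.card_fin])
    have e1 : img u h1 = A := hA _ ⟨h3, by
      intro x hx
      obtain ⟨k, _, rfl⟩ := mem_map.1 hx
      obtain ⟨j, hj⟩ := hs k
      exact mem_img.2 ⟨j, hj.symm⟩⟩
    have e2 : img u' h4 = A := hA _ ⟨h6, by
      intro x hx
      obtain ⟨k, _, rfl⟩ := mem_map.1 hx
      obtain ⟨j, hj⟩ := hs' k
      exact mem_img.2 ⟨j, hj.symm⟩⟩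
    have h7 : u i ∈ (img u' h4 : Finset ℕ) := by
      rw [e2, ← e1]
      exact mem_img.2 ⟨i, rfl⟩
    obtain ⟨j, hj⟩ := mem_img.1 h7
    exact ⟨j, hj.symm⟩
  · intro a b ha hb
    have h1 : ∀ x, T a b x = τ ⟨a, ha⟩ ⟨b, hb⟩ x := fun x => dif_pos ⟨ha, hb⟩
    have h2 : ∀ x, U a b x = (τ ⟨a, ha⟩ ⟨b, hb⟩).symm x := fun x => dif_pos ⟨ha, hb⟩
    refine ⟨fun x => ?_, fun x => ?_, fun i => ?_, fun v w => ?_⟩
    · rw [hU, hT, h1, h2, Equiv.symm_apply_apply]
    · rw [hT, hU, h1, h2, Equiv.apply_symm_apply]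
    · rw [hT, h1]
      exact (hτ ⟨a, ha⟩ ⟨b, hb⟩).2 i
    · rw [hE, hE]
      simp only [hT, h1]
      constructor
      · rintro ⟨hv, hw, h⟩
        refine ⟨fun i j h => hv ((τ ⟨a, ha⟩ ⟨b, hb⟩).injective h),
          fun i j h => hw ((τ ⟨a, ha⟩ ⟨b, hb⟩).injective h), ?_⟩
        have h3 := ((hτ ⟨a, ha⟩ ⟨b, hb⟩).1 (img v hv) (img w hw)).2 h
        rw [smul_img, smul_img] at h3
        exact h3
      · rintro ⟨hv, hw, h⟩
        have hv' : Function.Injective v := fun i j h => hv (by simp only [h])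
        have hw' : Function.Injective w := fun i j h => hw (by simp only [h])
        refine ⟨hv', hw', ?_⟩
        apply ((hτ ⟨a, ha⟩ ⟨b, hb⟩).1 (img v hv') (img w hw')).1
        rw [smul_img, smul_img]
        exact h

/-- a colouring of the `t`-subsets of any infinite set such that every `s`-set is in exactly one
`t`-set of each colour, with a `(t + 1)`-transitive group of automorphisms -/
theorem exists_colouring_inf {s t : ℕ} (hst : s < t) (X : Type) [Infinite X]
    [DecidableEq X] : ∃ (Y : Type) (c : Set.powersetCard X t → Y),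
      (∀ B : Set.powersetCard X t, ∀ W : Finset X, W.card = s →
        ∃! A : Set.powersetCard X t, c A = c B ∧ W ⊆ (A : Finset X)) ∧
      ∀ a b : Fin (t + 1) ↪ X, ∃ σ : Equiv.Perm X,
        (∀ A B : Set.powersetCard X t, c (σ • A) = c (σ • B) ↔ c A = c B) ∧
        ∀ i, σ (a i) = b i := by
  obtain ⟨_, h0⟩ := good_nat hst
  obtain ⟨_, h⟩ := transfer h0 X
  let R : Setoid (Set.powersetCard X t) :=
    { r := fun A B => EK (enum A) (enum B)
      iseqv := ⟨fun A => h.g2 _ (enum_inj A), fun {A B} h' => h.g3 _ _ h',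
        fun {A B C} h1 h2 => h.g4 _ _ _ h1 h2⟩ }
  have key : ∀ A B : Set.powersetCard X t, (Quotient.mk R A = Quotient.mk R B) ↔
      EK (enum A) (enum B) := fun A B => Quotient.eq (r := R)
  have perm : ∀ v w : Fin t → X, Function.Injective v → Function.Injective w →
      (∀ i, ∃ j, v i = w j) → EK v w := by
    intro v w hv hw hvw
    choose σ hσ using hvw
    have h1 : Function.Injective σ := by
      intro i j hij
      apply hv
      rw [hσ i, hσ j, hij]
    have h2 := h.g5 w hw (Equiv.ofBijective σ (Finite.injective_iff_bijective.1 h1))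
    have h3 : (fun i => w (Equiv.ofBijective σ (Finite.injective_iff_bijective.1 h1) i)) = v := by
      funext i
      exact (hσ i).symm
    rw [h3] at h2
    exact h.g3 _ _ h2
  refine ⟨Quotient R, Quotient.mk R, ?_, ?_⟩
  · intro B W hW
    let w : Fin s → X := fun i => ((Finset.equivFinOfCardEq hW).symm i : X)
    have hw : Function.Injective w := fun i j hij =>
      (Finset.equivFinOfCardEq hW).symm.injective (Subtype.ext hij)
    have hwW : ∀ x ∈ W, ∃ i, w i = x := fun x hx =>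
      ⟨Finset.equivFinOfCardEq hW ⟨x, hx⟩, by
        show (((Finset.equivFinOfCardEq hW).symm _ : _) : X) = x
        rw [Equiv.symm_apply_apply]⟩
    obtain ⟨u, hu1, hu2⟩ := h.g6 (enum B) w (enum_inj B) hw
    have hu := (h.g1 _ _ hu1).1
    refine ⟨img u hu, ⟨?_, ?_⟩, ?_⟩
    · rw [key]
      refine h.g4 _ u _ (perm _ _ (enum_inj _) hu ?_) hu1
      intro i
      obtain ⟨j, hj⟩ := mem_img.1 (enum_mem (img u hu) i)
      exact ⟨j, hj.symm⟩
    · intro x hx
      obtain ⟨i, rfl⟩ := hwW x hx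
      obtain ⟨j, hj⟩ := hu2 i
      exact mem_img.2 ⟨j, hj.symm⟩
    · rintro A ⟨hA1, hA2⟩
      rw [key] at hA1
      have h1 := h.g7 (enum B) (enum A) u w hw hA1 hu1 (fun i => by
        have h2 : w i ∈ (A : Finset X) := hA2 ((Finset.equivFinOfCardEq hW).symm i).2
        obtain ⟨j, hj⟩ := exists_enum h2
        exact ⟨j, hj.symm⟩) hu2
      apply eq_of_sub
      intro x hx
      obtain ⟨i, rfl⟩ := exists_enum hx
      obtain ⟨j, hj⟩ := h1 i
      exact mem_img.2 ⟨j, hj.symm⟩
  · intro a b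
    obtain ⟨h1, h2, h3, h4⟩ := h.g8 a b a.injective b.injective
    let σ : Equiv.Perm X :=
      { toFun := TK a b
        invFun := UK a b
        left_inv := fun x => h1 (fun _ => x)
        right_inv := fun x => h2 (fun _ => x) }
    refine ⟨σ, ?_, h3⟩
    intro A B
    rw [key, key, h4 (enum A) (enum B)]
    have hh : ∀ A : Set.powersetCard X t, EK (enum (σ • A)) (fun i => TK a b (enum A i)) := by
      intro A
      apply perm _ _ (enum_inj _) (fun i j hij => enum_inj A (σ.injective hij))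
      intro i
      have h5 := enum_mem (σ • A) i
      have h6 : σ • A = img (fun i => σ (enum A i)) (fun _ _ h => enum_inj A (σ.injective h)) := by
        conv_lhs => rw [← img_enum A]
        exact smul_img σ _ _
      rw [h6] at h5
      obtain ⟨j, hj⟩ := mem_img.1 h5
      refine ⟨j, ?_⟩
      rw [h6]
      exact hj.symm
    constructor
    · intro h5
      exact h.g4 _ _ _ (h.g3 _ _ (hh A)) (h.g4 _ _ _ h5 (hh B))
    · intro h5
      exact h.g4 _ _ _ (hh A) (h.g4 _ _ _ h5 (h.g3 _ _ (hh B)))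

end Pool.Agent.H6.LS
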