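import Mathlib

/-!
# Transfer of systems of colourings and permutations to all infinite cardinals

A language with two function symbols (for a family of permutations `T a b` and their inverses, indexed
by pairs of `(t + 1)`-tuples) and one relation symbol (for an equivalence relation on `t`-tuples).  By
the Löwenheim-Skolem theorem a structure on `ℕ` with the properties `Good` gives one on every infinite
set.
-/

set_option autoImplicit false

open FirstOrder

namespace Pool.Agent.H6.LS

inductive Fn (p : ℕ) : ℕ → Type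
  | T : Fn p p
  | U : Fn p p

inductive Rl (q : ℕ) : ℕ → Type
  | E : Rl q q

/-- index type of the arguments of `T a b x` -/
abbrev IA (t : ℕ) : Type := Fin (t + 1) ⊕ (Fin (t + 1) ⊕ Unit)

/-- index type of the arguments of `E v w` -/
abbrev IB (t : ℕ) : Type := Fin t ⊕ Fin t

/-- the language -/
def L (t : ℕ) : Language := ⟨Fn (Fintype.card (IA t)), Rl (Fintype.card (IB t))⟩

/-- the function symbols and the relation symbol -/
def fT (t : ℕ) : (L t).Functions (Fintype.card (IA t)) := Fn.T
def fU (t : ℕ) : (L t).Functions (Fintype.card (IA t)) := Fn.U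
def rE (t : ℕ) : (L t).Relations (Fintype.card (IB t)) := Rl.E

noncomputable def eA (t : ℕ) : Fin (Fintype.card (IA t)) ≃ IA t := (Fintype.equivFin _).symm
noncomputable def eB (t : ℕ) : Fin (Fintype.card (IB t)) ≃ IB t := (Fintype.equivFin _).symm

section sem
variable {t : ℕ} {K : Type} [(L t).Structure K]

noncomputable def TK (a b : Fin (t + 1) → K) (x : K) : K :=
  Language.Structure.funMap (L := L t) (fT t)
    (fun k => Sum.elim a (Sum.elim b (fun _ => x)) (eA t k))

noncomputable def UK (a b : Fin (t + 1) → K) (x : K) : K :=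
  Language.Structure.funMap (L := L t) (fU t)
    (fun k => Sum.elim a (Sum.elim b (fun _ => x)) (eA t k))

def EK (v w : Fin t → K) : Prop :=
  Language.Structure.RelMap (L := L t) (rE t)
    (fun k => Sum.elim v w (eB t k))

end sem

/-- definable families of functions -/
def FT (t : ℕ) (α : Type) (f : ∀ (K : Type) [(L t).Structure K], (α → K) → K) : Prop :=
  ∃ τ : (L t).Term α, ∀ (K : Type) [(L t).Structure K] (v : α → K), τ.realize v = f K v

/-- definable families of predicates -/
def FO (t : ℕ) (α : Type) (P : ∀ (K : Type) [(L t).Structure K], (α → K) → Prop) : Prop :=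
  ∃ φ : (L t).Formula α, ∀ (K : Type) [(L t).Structure K] (v : α → K), φ.Realize v ↔ P K v

variable {t : ℕ} {α : Type}

theorem FT.var (x : α) : FT t α (fun _ _ v => v x) := ⟨Language.Term.var x, fun _ _ _ => rfl⟩

theorem FT.T {a b : Fin (t + 1) → ∀ (K : Type) [(L t).Structure K], (α → K) → K}
    {x : ∀ (K : Type) [(L t).Structure K], (α → K) → K}
    (ha : ∀ i, FT t α (a i)) (hb : ∀ i, FT t α (b i)) (hx : FT t α x) :
    FT t α (fun K _ v => TK (fun i => a i K v) (fun i => b i K v) (x K v)) := by
  choose τa ha using ha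
  choose τb hb using hb
  obtain ⟨τx, hx⟩ := hx
  refine ⟨Language.Term.func (fT t)
    (fun k => Sum.elim τa (Sum.elim τb (fun _ => τx)) (eA t k)), ?_⟩
  intro K _ v
  have h : (fun i => Language.Term.realize v (Sum.elim τa (Sum.elim τb (fun _ => τx)) (eA t i))) =
      fun k => Sum.elim (fun i => a i K v) (Sum.elim (fun i => b i K v) (fun _ => x K v))
        (eA t k) := by
    funext k
    rcases eA t k with i | i | i
    · simp only [Sum.elim_inl, ha]
    · simp only [Sum.elim_inl, Sum.elim_inr, hb]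
    · simp only [Sum.elim_inr, hx]
  rw [Language.Term.realize_func]
  exact congrArg _ h

theorem FT.U {a b : Fin (t + 1) → ∀ (K : Type) [(L t).Structure K], (α → K) → K}
    {x : ∀ (K : Type) [(L t).Structure K], (α → K) → K}
    (ha : ∀ i, FT t α (a i)) (hb : ∀ i, FT t α (b i)) (hx : FT t α x) :
    FT t α (fun K _ v => UK (fun i => a i K v) (fun i => b i K v) (x K v)) := by
  choose τa ha using ha
  choose τb hb using hb
  obtain ⟨τx, hx⟩ := hx
  refine ⟨Language.Term.func (fU t)
    (fun k => Sum.elim τa (Sum.elim τb (fun _ => τx)) (eA t k)), ?_⟩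
  intro K _ v
  have h : (fun i => Language.Term.realize v (Sum.elim τa (Sum.elim τb (fun _ => τx)) (eA t i))) =
      fun k => Sum.elim (fun i => a i K v) (Sum.elim (fun i => b i K v) (fun _ => x K v))
        (eA t k) := by
    funext k
    rcases eA t k with i | i | i
    · simp only [Sum.elim_inl, ha]
    · simp only [Sum.elim_inl, Sum.elim_inr, hb]
    · simp only [Sum.elim_inr, hx]
  rw [Language.Term.realize_func]
  exact congrArg _ h

theorem FO.E {a b : Fin t → ∀ (K : Type) [(L t).Structure K], (α → K) → K}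
    (ha : ∀ i, FT t α (a i)) (hb : ∀ i, FT t α (b i)) :
    FO t α (fun K _ v => EK (fun i => a i K v) (fun i => b i K v)) := by
  choose τa ha using ha
  choose τb hb using hb
  refine ⟨Language.Relations.formula (rE t)
    (fun k => Sum.elim τa τb (eB t k)), ?_⟩
  intro K _ v
  have h : (fun i => Language.Term.realize v (Sum.elim τa τb (eB t i))) =
      fun k => Sum.elim (fun i => a i K v) (fun i => b i K v) (eB t k) := by
    funext k
    rcases eB t k with i | i
    · simp only [Sum.elim_inl, ha]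
    · simp only [Sum.elim_inr, hb]
  rw [Language.Formula.realize_rel]
  exact iff_of_eq (congrArg _ h)

theorem FO.eq {x y : ∀ (K : Type) [(L t).Structure K], (α → K) → K} (hx : FT t α x)
    (hy : FT t α y) : FO t α (fun K _ v => x K v = y K v) := by
  obtain ⟨τx, hx⟩ := hx
  obtain ⟨τy, hy⟩ := hy
  refine ⟨Language.Term.equal τx τy, ?_⟩
  intro K _ v
  rw [Language.Formula.realize_equal, hx, hy]

theorem FO.and {P Q : ∀ (K : Type) [(L t).Structure K], (α → K) → Prop} (hP : FO t α P)
    (hQ : FO t α Q) : FO t α (fun K _ v => P K v ∧ Q K v) := by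
  obtain ⟨φ, hP⟩ := hP
  obtain ⟨ψ, hQ⟩ := hQ
  refine ⟨φ ⊓ ψ, ?_⟩
  intro K _ v
  rw [Language.Formula.realize_inf, hP, hQ]

theorem FO.imp {P Q : ∀ (K : Type) [(L t).Structure K], (α → K) → Prop} (hP : FO t α P)
    (hQ : FO t α Q) : FO t α (fun K _ v => P K v → Q K v) := by
  obtain ⟨φ, hP⟩ := hP
  obtain ⟨ψ, hQ⟩ := hQ
  refine ⟨φ.imp ψ, ?_⟩
  intro K _ v
  rw [Language.Formula.realize_imp, hP, hQ]

theorem FO.iff {P Q : ∀ (K : Type) [(L t).Structure K], (α → K) → Prop} (hP : FO t α P)
    (hQ : FO t α Q) : FO t α (fun K _ v => P K v ↔ Q K v) := by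
  obtain ⟨φ, hP⟩ := hP
  obtain ⟨ψ, hQ⟩ := hQ
  refine ⟨φ.iff ψ, ?_⟩
  intro K _ v
  rw [Language.Formula.realize_iff, hP, hQ]

theorem FO.not {P : ∀ (K : Type) [(L t).Structure K], (α → K) → Prop} (hP : FO t α P) :
    FO t α (fun K _ v => ¬ P K v) := by
  obtain ⟨φ, hP⟩ := hP
  refine ⟨φ.not, ?_⟩
  intro K _ v
  rw [Language.Formula.realize_not, hP]

theorem FO.const (p : Prop) : FO t α (fun _ _ _ => p) := by
  by_cases hp : p
  · exact ⟨⊤, fun K _ v => by simp [hp]⟩
  · exact ⟨⊥, fun K _ v => by simp [hp]⟩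

theorem FO.iAll {ι : Type} [Finite ι] {P : ι → ∀ (K : Type) [(L t).Structure K], (α → K) → Prop}
    (hP : ∀ i, FO t α (P i)) : FO t α (fun K _ v => ∀ i, P i K v) := by
  choose φ hP using hP
  refine ⟨Language.Formula.iInf φ, ?_⟩
  intro K _ v
  rw [Language.Formula.Realize, Language.Formula.iInf, Language.BoundedFormula.realize_iInf]
  exact forall_congr' fun i => hP i K v

theorem FO.iEx {ι : Type} [Finite ι] {P : ι → ∀ (K : Type) [(L t).Structure K], (α → K) → Prop}
    (hP : ∀ i, FO t α (P i)) : FO t α (fun K _ v => ∃ i, P i K v) := by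
  choose φ hP using hP
  refine ⟨Language.Formula.iSup φ, ?_⟩
  intro K _ v
  rw [Language.Formula.Realize, Language.Formula.iSup, Language.BoundedFormula.realize_iSup]
  exact exists_congr fun i => hP i K v

theorem FO.all {β : Type} [Finite β]
    {P : ∀ (K : Type) [(L t).Structure K], (α → K) → (β → K) → Prop}
    (hP : FO t (α ⊕ β) (fun K _ w => P K (fun i => w (Sum.inl i)) (fun i => w (Sum.inr i)))) :
    FO t α (fun K _ v => ∀ u : β → K, P K v u) := by
  obtain ⟨φ, hP⟩ := hP
  refine ⟨φ.iAlls β, ?_⟩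
  intro K _ v
  rw [Language.Formula.realize_iAlls]
  exact forall_congr' fun u => hP K (Sum.elim v u)

theorem FO.ex {β : Type} [Finite β]
    {P : ∀ (K : Type) [(L t).Structure K], (α → K) → (β → K) → Prop}
    (hP : FO t (α ⊕ β) (fun K _ w => P K (fun i => w (Sum.inl i)) (fun i => w (Sum.inr i)))) :
    FO t α (fun K _ v => ∃ u : β → K, P K v u) := by
  obtain ⟨φ, hP⟩ := hP
  refine ⟨φ.iExs β, ?_⟩
  intro K _ v
  rw [Language.Formula.realize_iExs]
  exact exists_congr fun u => hP K (Sum.elim v u)

theorem FO.inj {ι : Type} [Finite ι] {x : ι → ∀ (K : Type) [(L t).Structure K], (α → K) → K}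
    (hx : ∀ i, FT t α (x i)) : FO t α (fun K _ v => Function.Injective (fun i => x i K v)) := by
  have h : FO t α (fun K _ v => ∀ i j, x i K v = x j K v → i = j) :=
    FO.iAll fun i => FO.iAll fun j => FO.imp (FO.eq (hx i) (hx j)) (FO.const (i = j))
  obtain ⟨φ, h⟩ := h
  refine ⟨φ, fun K _ v => (h K v).trans ?_⟩
  rfl

/-- every entry of `w` is an entry of `u` -/
theorem FO.sub {ι κ : Type} [Finite ι] [Finite κ]
    {x : ι → ∀ (K : Type) [(L t).Structure K], (α → K) → K}
    {y : κ → ∀ (K : Type) [(L t).Structure K], (α → K) → K}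
    (hx : ∀ i, FT t α (x i)) (hy : ∀ i, FT t α (y i)) :
    FO t α (fun K _ v => ∀ i, ∃ j, x i K v = y j K v) :=
  FO.iAll fun i => FO.iEx fun j => FO.eq (hx i) (hy j)

/-- the properties which are transferred -/
structure Good (s t : ℕ) (K : Type) [(L t).Structure K] : Prop where
  g1 : ∀ v w : Fin t → K, EK v w → Function.Injective v ∧ Function.Injective w
  g2 : ∀ v : Fin t → K, Function.Injective v → EK v v
  g3 : ∀ v w : Fin t → K, EK v w → EK w v
  g4 : ∀ u v w : Fin t → K, EK u v → EK v w → EK u w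
  g5 : ∀ (v : Fin t → K), Function.Injective v → ∀ (σ : Equiv.Perm (Fin t)),
    EK v (fun i => v (σ i))
  g6 : ∀ (v : Fin t → K) (w : Fin s → K), Function.Injective v → Function.Injective w →
    ∃ u : Fin t → K, EK u v ∧ ∀ i, ∃ j, w i = u j
  g7 : ∀ (v u u' : Fin t → K) (w : Fin s → K), Function.Injective w → EK u v → EK u' v →
    (∀ i, ∃ j, w i = u j) → (∀ i, ∃ j, w i = u' j) → ∀ i, ∃ j, u i = u' j
  g8 : ∀ a b : Fin (t + 1) → K, Function.Injective a → Function.Injective b →
    (∀ x : Unit → K, UK a b (TK a b (x ())) = x ()) ∧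
    (∀ x : Unit → K, TK a b (UK a b (x ())) = x ()) ∧
    (∀ i, TK a b (a i) = b i) ∧
    (∀ v w : Fin t → K, EK v w ↔ EK (fun i => TK a b (v i)) (fun i => TK a b (w i)))

theorem good_fo (s t : ℕ) : FO t Empty (fun K _ _ => Good s t K) := by
  have h1 : FO t Empty (fun K _ _ => ∀ v w : Fin t → K, EK v w →
      Function.Injective v ∧ Function.Injective w) := by
    refine FO.all (FO.all (FO.imp (FO.E (fun i => FT.var _) (fun i => FT.var _))
      (FO.and (FO.inj fun i => FT.var _) (FO.inj fun i => FT.var _))))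
  have h2 : FO t Empty (fun K _ _ => ∀ v : Fin t → K, Function.Injective v → EK v v) := by
    refine FO.all (FO.imp (FO.inj fun i => FT.var _) (FO.E (fun i => FT.var _) (fun i => FT.var _)))
  have h3 : FO t Empty (fun K _ _ => ∀ v w : Fin t → K, EK v w → EK w v) := by
    refine FO.all (FO.all (FO.imp (FO.E (fun i => FT.var _) (fun i => FT.var _))
      (FO.E (fun i => FT.var _) (fun i => FT.var _))))
  have h4 : FO t Empty (fun K _ _ => ∀ u v w : Fin t → K, EK u v → EK v w → EK u w) := by
    refine FO.all (FO.all (FO.all (FO.imp (FO.E (fun i => FT.var _) (fun i => FT.var _))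
      (FO.imp (FO.E (fun i => FT.var _) (fun i => FT.var _))
      (FO.E (fun i => FT.var _) (fun i => FT.var _))))))
  have h5 : FO t Empty (fun K _ _ => ∀ (v : Fin t → K), Function.Injective v →
      ∀ (σ : Equiv.Perm (Fin t)), EK v (fun i => v (σ i))) := by
    refine FO.all (FO.imp (FO.inj fun i => FT.var _) (FO.iAll fun σ =>
      (FO.E (fun i => FT.var _) (fun i => FT.var _))))
  have h6 : FO t Empty (fun K _ _ => ∀ (v : Fin t → K) (w : Fin s → K), Function.Injective v →
      Function.Injective w → ∃ u : Fin t → K, EK u v ∧ ∀ i, ∃ j, w i = u j) := by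
    refine FO.all (FO.all (FO.imp (FO.inj fun i => FT.var _) (FO.imp (FO.inj fun i => FT.var _)
      (FO.ex (FO.and (FO.E (fun i => FT.var _) (fun i => FT.var _))
        (FO.sub (fun i => FT.var _) (fun i => FT.var _)))))))
  have h7 : FO t Empty (fun K _ _ => ∀ (v u u' : Fin t → K) (w : Fin s → K),
      Function.Injective w → EK u v → EK u' v →
      (∀ i, ∃ j, w i = u j) → (∀ i, ∃ j, w i = u' j) → ∀ i, ∃ j, u i = u' j) := by
    refine FO.all (FO.all (FO.all (FO.all (FO.imp (FO.inj fun i => FT.var _)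
      (FO.imp (FO.E (fun i => FT.var _) (fun i => FT.var _))
      (FO.imp (FO.E (fun i => FT.var _) (fun i => FT.var _))
      (FO.imp (FO.sub (fun i => FT.var _) (fun i => FT.var _))
      (FO.imp (FO.sub (fun i => FT.var _) (fun i => FT.var _))
        (FO.sub (fun i => FT.var _) (fun i => FT.var _))))))))))
  have h8 : FO t Empty (fun K _ _ => ∀ a b : Fin (t + 1) → K, Function.Injective a →
      Function.Injective b →
      (∀ x : Unit → K, UK a b (TK a b (x ())) = x ()) ∧
      (∀ x : Unit → K, TK a b (UK a b (x ())) = x ()) ∧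
      (∀ i, TK a b (a i) = b i) ∧
      (∀ v w : Fin t → K, EK v w ↔ EK (fun i => TK a b (v i)) (fun i => TK a b (w i)))) := by
    refine FO.all (FO.all (FO.imp (FO.inj fun i => FT.var _) (FO.imp (FO.inj fun i => FT.var _)
      (FO.and ?_ (FO.and ?_ (FO.and ?_ ?_))))))
    · exact FO.all (FO.eq (FT.U (fun i => FT.var _) (fun i => FT.var _)
        (FT.T (fun i => FT.var _) (fun i => FT.var _) (FT.var _))) (FT.var _))
    · exact FO.all (FO.eq (FT.T (fun i => FT.var _) (fun i => FT.var _)
        (FT.U (fun i => FT.var _) (fun i => FT.var _) (FT.var _))) (FT.var _))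
    · exact FO.iAll fun i => FO.eq (FT.T (fun i => FT.var _) (fun i => FT.var _) (FT.var _))
        (FT.var _)
    · exact FO.all (FO.all (FO.iff (FO.E (fun i => FT.var _) (fun i => FT.var _))
        (FO.E (fun i => FT.T (fun i => FT.var _) (fun i => FT.var _) (FT.var _))
          (fun i => FT.T (fun i => FT.var _) (fun i => FT.var _) (FT.var _)))))
  obtain ⟨φ, h⟩ := FO.and h1 (FO.and h2 (FO.and h3 (FO.and h4 (FO.and h5 (FO.and h6
    (FO.and h7 h8))))))
  refine ⟨φ, fun K _ v => (h K v).trans ?_⟩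
  constructor
  · rintro ⟨a1, a2, a3, a4, a5, a6, a7, a8⟩
    exact ⟨a1, a2, a3, a4, a5, a6, a7, a8⟩
  · rintro ⟨a1, a2, a3, a4, a5, a6, a7, a8⟩
    exact ⟨a1, a2, a3, a4, a5, a6, a7, a8⟩

theorem card_le (t : ℕ) : (L t).card ≤ Cardinal.aleph0 := by
  have h1 : Countable (Σ l, (L t).Functions l) := by
    have : Function.Injective (fun x : Σ l, (L t).Functions l =>
        match x with
        | ⟨_, Fn.T⟩ => true
        | ⟨_, Fn.U⟩ => false) := by
      rintro ⟨_, ⟨⟩⟩ ⟨_, ⟨⟩⟩ h
      · rfl
      · exact Bool.noConfusion h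
      · exact Bool.noConfusion h
      · rfl
    exact this.countable
  have h2 : Countable (Σ l, (L t).Relations l) := by
    have : Function.Injective (fun _ : Σ l, (L t).Relations l => ()) := by
      rintro ⟨_, ⟨⟩⟩ ⟨_, ⟨⟩⟩ h
      rfl
    exact this.countable
  exact Cardinal.mk_le_aleph0_iff.2 (inferInstanceAs (Countable
    ((Σ l, (L t).Functions l) ⊕ (Σ l, (L t).Relations l))))

/-- the properties hold on every infinite set if they hold on `ℕ` -/
theorem transfer {s t : ℕ} [(L t).Structure ℕ] (h : Good s t ℕ) (X : Type) [Infinite X] :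
    ∃ _ : (L t).Structure X, Good s t X := by
  obtain ⟨φ, hφ⟩ := good_fo s t
  obtain ⟨N, h1, h2⟩ := Language.exists_elementarilyEquivalent_card_eq (L t) ℕ (Cardinal.mk X)
    (Cardinal.aleph0_le_mk X) (by
      rw [Cardinal.lift_id, Cardinal.lift_id]
      exact (card_le t).trans (Cardinal.aleph0_le_mk X))
  obtain ⟨e⟩ := Cardinal.eq.1 h2
  let _ : (L t).Structure X := e.inducedStructure
  have h3 : N ≅[L t] X := (Equiv.inducedStructureEquiv e).toElementaryEmbedding.elementarilyEquivalent
  have h4 : Language.Sentence.Realize ℕ φ := by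
    show Language.Formula.Realize φ _
    exact (hφ ℕ _).2 h
  have h5 : Language.Sentence.Realize X φ := ((h1.trans h3).realize_sentence φ).1 h4
  refine ⟨inferInstance, (hφ X default).1 ?_⟩
  exact h5

/-- the structure given by functions and a relation -/
@[instance_reducible] noncomputable def mkStr {t : ℕ} {K : Type} (T U : (Fin (t + 1) → K) → (Fin (t + 1) → K) → K → K)
    (E : (Fin t → K) → (Fin t → K) → Prop) : (L t).Structure K where
  funMap := fun {_} f => match f with
    | Fn.T => fun x => T (fun i => x ((eA t).symm (Sum.inl i)))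
        (fun i => x ((eA t).symm (Sum.inr (Sum.inl i)))) (x ((eA t).symm (Sum.inr (Sum.inr ()))))
    | Fn.U => fun x => U (fun i => x ((eA t).symm (Sum.inl i)))
        (fun i => x ((eA t).symm (Sum.inr (Sum.inl i)))) (x ((eA t).symm (Sum.inr (Sum.inr ()))))
  RelMap := fun {_} r => match r with
    | Rl.E => fun x => E (fun i => x ((eB t).symm (Sum.inl i)))
        (fun i => x ((eB t).symm (Sum.inr i)))

theorem mkStr_T {t : ℕ} {K : Type} (T U : (Fin (t + 1) → K) → (Fin (t + 1) → K) → K → K)
    (E : (Fin t → K) → (Fin t → K) → Prop) (a b : Fin (t + 1) → K) (x : K) :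
    @TK t K (mkStr T U E) a b x = T a b x := by
  show T _ _ _ = _
  simp

theorem mkStr_U {t : ℕ} {K : Type} (T U : (Fin (t + 1) → K) → (Fin (t + 1) → K) → K → K)
    (E : (Fin t → K) → (Fin t → K) → Prop) (a b : Fin (t + 1) → K) (x : K) :
    @UK t K (mkStr T U E) a b x = U a b x := by
  show U _ _ _ = _
  simp

theorem mkStr_E {t : ℕ} {K : Type} (T U : (Fin (t + 1) → K) → (Fin (t + 1) → K) → K → K)
    (E : (Fin t → K) → (Fin t → K) → Prop) (v w : Fin t → K) :
    @EK t K (mkStr T U E) v w ↔ E v w := by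
  show E _ _ ↔ _
  simp

end Pool.Agent.H6.LS
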